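import Mathlib
import Pool.Agent.Helper364.EQ.Final

set_option autoImplicit false
open scoped ENNReal

namespace Pool.Agent.Results.MP_dfb345_an.SubspaceQuotientNotLp

/-- the real Banach space `ℓ_4` -/
abbrev L4 : Type := lp (fun _ : ℕ => ℝ) 4

/-- `X` is isomorphic to a closed linear subspace of `ℓ_4` -/
def IsoSubspace (X : Type) [NormedAddCommGroup X] [NormedSpace ℝ X] : Prop :=
  ∃ S : Submodule ℝ L4, IsClosed (S : Set L4) ∧ Nonempty (X ≃L[ℝ] S)

/-- `X` is isomorphic to the quotient of `ℓ_4` by a closed linear subspace -/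
def IsoQuotient (X : Type) [NormedAddCommGroup X] [NormedSpace ℝ X] : Prop :=
  ∃ Z : Submodule ℝ L4, IsClosed (Z : Set L4) ∧ Nonempty (X ≃L[ℝ] (L4 ⧸ Z))

open Pool.EQ in
/-- There is an infinite-dimensional real Banach space which is isomorphic to a closed subspace of
`ℓ_4`, isomorphic to a quotient of `ℓ_4` by a closed subspace, and not isomorphic to `ℓ_4`. -/
theorem result :
    ∃ (X : Type) (_ : NormedAddCommGroup X) (_ : NormedSpace ℝ X),
      CompleteSpace X ∧ ¬ FiniteDimensional ℝ X ∧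
      IsoSubspace X ∧ IsoQuotient X ∧ IsEmpty (X ≃L[ℝ] L4) := by
  have hn : ∀ m : ℕ, 1 ≤ (m + 2) ^ 4 := fun m => Nat.one_le_pow _ _ (by omega)
  have hm : ∀ m : ℕ, 1 ≤ m + 2 := fun m => by omega
  obtain ⟨S, ⟨eS⟩⟩ := glue_S (XX := XE) (fun m => KX ((m + 2) ^ 4))
    (fun m => (jmap ((m + 2) ^ 4) (m + 2) : (Idx ((m + 2) ^ 4) → ℝ) →ₗ[ℝ] _))
    (fun m x => (jmap_norm _ _ _).trans (XE_norm m x).symm)
  choose K hF hN q hq hs using fun m : ℕ => quot (hn m) (hm m)
  obtain ⟨T, hT⟩ := glue_Q (XX := XE) K (fun m => (q m : (K m → ℝ) →ₗ[ℝ] (Idx ((m + 2) ^ 4) → ℝ))) 3000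
    (fun m F => by
      rw [XE_norm]
      have h1 := (EN_EN4 (hn m) (m + 2) (q m F)).2
      have h2 := hq m F
      exact le_trans h1 (by linarith))
    (fun m x => by
      obtain ⟨F, h1, h2⟩ := hs m x
      refine ⟨F, h1, ?_⟩
      rw [XE_norm]
      have h3 := (EN_EN4 (hn m) (m + 2) (x : Idx ((m + 2) ^ 4) → ℝ)).1
      have h4 : 0 ≤ ‖x‖ ^ 4 := by positivity
      rw [XE_norm] at h4
      have h5 : (1000 : ℝ) * EN (m + 2) (x : Idx ((m + 2) ^ 4) → ℝ) ≤
          3000 * EN4 (m + 2) (x : Idx ((m + 2) ^ 4) → ℝ) := by linarith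
      exact le_trans h2 h5)
  refine ⟨lp XE 4, inferInstance, inferInstance, inferInstance, glue_inf, ⟨S, ?_, ⟨eS⟩⟩,
    ⟨LinearMap.ker T.toLinearMap, ?_, ⟨?_⟩⟩, ⟨fun Φ => ?_⟩⟩
  · have : CompleteSpace S := (completeSpace_congr (e := eS.toEquiv) eS.isUniformEmbedding).mp inferInstance
    exact (completeSpace_coe_iff_isComplete.mp this).isClosed
  · exact T.isClosed_ker
  · have hc : IsClosed ((LinearMap.ker T.toLinearMap : Submodule ℝ (lp (fun _ : ℕ => ℝ) 4)) :
        Set (lp (fun _ : ℕ => ℝ) 4)) := T.isClosed_ker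
    have : IsClosed ((LinearMap.ker T.toLinearMap).toAddSubgroup : Set (lp (fun _ : ℕ => ℝ) 4)) := hc
    exact ((T.toLinearMap.quotKerEquivOfSurjective hT).toContinuousLinearEquivOfContinuous
      ((Submodule.isQuotientMap_mkQ (S := LinearMap.ker T.toLinearMap)).continuous_iff.mpr T.continuous)).symm
  · obtain ⟨C, hC, hfac⟩ := glue_fac Φ
    have key : ∀ m : ℕ, Real.log ((m + 2 : ℕ) : ℝ) ≤
        22 * (Real.log (48 * C ^ 4) + 3 * Real.log (3 * C ^ 2) + 4 * Real.log 2) := by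
      intro m
      obtain ⟨J, P, hPJ, hJ, hP⟩ := hfac m
      refine fac (n := (m + 2) ^ 4) (hm m) le_rfl C hC J P hPJ ?_ ?_
      · intro ξ
        have h1 := pow_le_pow_left₀ (norm_nonneg _) (hJ ξ) 4
        rw [mul_pow, XE_norm m] at h1
        exact h1
      · intro y
        have h1 := pow_le_pow_left₀ (norm_nonneg _) (hP y) 4
        rw [mul_pow, XE_norm m] at h1
        exact h1
    have h1 : Filter.Tendsto (fun m : ℕ => Real.log ((m + 2 : ℕ) : ℝ)) Filter.atTop Filter.atTop :=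
      Real.tendsto_log_atTop.comp (tendsto_natCast_atTop_atTop.comp (Filter.tendsto_add_atTop_nat 2))
    obtain ⟨m, hm1⟩ := (h1.eventually (Filter.eventually_gt_atTop
      (22 * (Real.log (48 * C ^ 4) + 3 * Real.log (3 * C ^ 2) + 4 * Real.log 2)))).exists
    exact absurd (key m) (not_le.mpr hm1)

end Pool.Agent.Results.MP_dfb345_an.SubspaceQuotientNotLp
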